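import Pool.Agent.W307.FK.Stm

/-!
# FK-SOM: a convergent series
-/

set_option autoImplicit false

namespace Pool.Agent.W334.FK

open Finset

/-- the bound `128 ^ ω(g) ≤ 128 ^ 16384 √g` -/
theorem omega_bound (g : ℕ) (hg : g ≠ 0) :
    (128 : ℝ) ^ g.primeFactors.card ≤ 128 ^ 16384 * Real.sqrt g := by
  classical
  set P1 := g.primeFactors.filter (fun p => p < 16384) with hP1
  set P2 := g.primeFactors.filter (fun p => ¬ p < 16384) with hP2
  have hcard : g.primeFactors.card = P1.card + P2.card := (card_filter_add_card_filter_not _).symm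
  have h1 : P1.card ≤ 16384 := by
    have : P1 ⊆ range 16384 := fun p hp => mem_range.2 (mem_filter.1 hp).2
    simpa using card_le_card this
  have h2 : (128 : ℝ) ^ P2.card ≤ Real.sqrt g := by
    have h3 : (128 : ℝ) ^ P2.card ≤ ∏ p ∈ P2, Real.sqrt p := by
      rw [← prod_const]
      apply prod_le_prod
      · intro p _; norm_num
      · intro p hp
        have h4 : ¬ p < 16384 := (mem_filter.1 hp).2
        apply Real.le_sqrt_of_sq_le
        have : ((16384 : ℕ) : ℝ) ≤ p := by exact_mod_cast not_lt.1 h4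
        push_cast at this
        linarith
    have h4 : ∏ p ∈ P2, Real.sqrt p = Real.sqrt (∏ p ∈ P2, (p : ℝ)) := by
      rw [Real.sqrt_eq_rpow, ← Real.finsetProd_rpow]
      · exact prod_congr rfl fun p _ => Real.sqrt_eq_rpow _
      · intro p _; positivity
    rw [h4] at h3
    refine h3.trans (Real.sqrt_le_sqrt ?_)
    have h5 : ∏ p ∈ P2, p ∣ g := (prod_dvd_prod_of_subset _ _ _ (filter_subset _ _)).trans
      (Nat.prod_primeFactors_dvd g)
    have h6 := Nat.le_of_dvd (Nat.pos_of_ne_zero hg) h5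
    have h7 : ((∏ p ∈ P2, p : ℕ) : ℝ) ≤ (g : ℝ) := Nat.cast_le.2 h6
    rwa [Nat.cast_prod] at h7
  rw [hcard, pow_add]
  have h5 : (128 : ℝ) ^ P1.card ≤ 128 ^ 16384 := pow_le_pow_right₀ (by norm_num) h1
  gcongr

theorem som0 : ∃ C : ℝ, 0 ≤ C ∧ ∀ n : ℕ,
    ∑ g ∈ Icc 1 n, (128 : ℝ) ^ g.primeFactors.card / (g : ℝ) ^ 2 ≤ C := by
  have hs : Summable fun g : ℕ => ((g : ℝ) ^ (3 / 2 : ℝ))⁻¹ := by
    rw [Real.summable_nat_rpow_inv]
    norm_num
  refine ⟨128 ^ 16384 * ∑' g : ℕ, ((g : ℝ) ^ (3 / 2 : ℝ))⁻¹, ?_, fun n => ?_⟩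
  · apply mul_nonneg (by positivity)
    exact tsum_nonneg fun g => by positivity
  · calc ∑ g ∈ Icc 1 n, (128 : ℝ) ^ g.primeFactors.card / (g : ℝ) ^ 2
        ≤ ∑ g ∈ Icc 1 n, 128 ^ 16384 * ((g : ℝ) ^ (3 / 2 : ℝ))⁻¹ := by
          refine sum_le_sum fun g hg => ?_
          have hg1 := (mem_Icc.1 hg).1
          have hg0 : 0 < (g : ℝ) := by exact_mod_cast hg1
          have h1 := omega_bound g (by omega)
          rw [div_le_iff₀ (by positivity)]
          refine h1.trans (le_of_eq ?_)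
          rw [mul_assoc]
          congr 1
          rw [Real.sqrt_eq_rpow, ← Real.rpow_neg hg0.le, ← Real.rpow_natCast (g : ℝ) 2,
            ← Real.rpow_add hg0]
          norm_num
      _ = 128 ^ 16384 * ∑ g ∈ Icc 1 n, ((g : ℝ) ^ (3 / 2 : ℝ))⁻¹ := by rw [mul_sum]
      _ ≤ 128 ^ 16384 * ∑' g : ℕ, ((g : ℝ) ^ (3 / 2 : ℝ))⁻¹ := by
          apply mul_le_mul_of_nonneg_left _ (by positivity)
          exact hs.sum_le_tsum _ fun g _ => by positivity

theorem som : Pool.Agent.W307.FK.SOM := som0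

end Pool.Agent.W334.FK
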